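import Mathlib

set_option autoImplicit false
set_option linter.unusedVariables false
set_option linter.unusedSectionVars false

/-!
# FJ3, module C1: the girth of the linear dihedral Artin group

Product of fewer than `m` syllable pairs `U^a V^b` (nonzero exponents, exponent sum zero) is not the identity.
-/

namespace Pool.Agent.helper18.FJ3.MG

open Matrix

abbrev M2 := Matrix (Fin 2) (Fin 2) ℝ

def U (lam : ℝ) (a : ℤ) : M2 := !![1, (a : ℝ) * lam; 0, 1]

def Sg : M2 := !![0, 1; -1, 0]

def rho (lam : ℝ) : M2 := !![-lam, 1; -1, 0]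

def Ph (lam : ℝ) : List ℤ → M2
  | [] => 1
  | a :: l => U lam a * Sg * Ph lam l

def E (A : M2) : Prop := A = 1 ∨ A = -1

theorem E_neg {A : M2} (h : E A) : E (-A) := by
  rcases h with h | h
  · right; rw [h]
  · left; rw [h]; simp

theorem E_comm {A B : M2} (h : E (A * B)) : E (B * A) := by
  rcases h with h | h
  · left; exact mul_eq_one_comm.mp h
  · right
    have h1 : (-A) * B = 1 := by rw [neg_mul, h, neg_neg]
    have h2 : B * (-A) = 1 := mul_eq_one_comm.mp h1
    rw [mul_neg] at h2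
    rw [← h2, neg_neg]

theorem Ph_append (lam : ℝ) (p q : List ℤ) : Ph lam (p ++ q) = Ph lam p * Ph lam q := by
  induction p with
  | nil => simp [Ph]
  | cons a l ih => simp only [List.cons_append, Ph, ih, mul_assoc]

theorem U_add (lam : ℝ) (a b : ℤ) : U lam (a + b) = U lam a * U lam b := by
  unfold U
  ext i j
  fin_cases i <;> fin_cases j <;> simp [Matrix.mul_apply, Fin.sum_univ_two]
  ring

theorem Sg_sq : Sg * Sg = -1 := by
  unfold Sg
  ext i j
  fin_cases i <;> fin_cases j <;> simp [Matrix.mul_apply, Fin.sum_univ_two]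

theorem U_one_Sg (lam : ℝ) : U lam 1 * Sg = rho lam := by
  unfold U Sg rho
  ext i j
  fin_cases i <;> fin_cases j <;> simp [Matrix.mul_apply, Fin.sum_univ_two]

theorem U_zero (lam : ℝ) : U lam 0 = 1 := by
  unfold U
  ext i j
  fin_cases i <;> fin_cases j <;> simp

/-! ### vectors -/

abbrev V2 := Fin 2 → ℝ

def Pp (v : V2) : Prop := 0 < v 0 * v 1

def Nn (v : V2) : Prop := v 0 * v 1 < 0

theorem Pp_neg {v : V2} (h : Pp v) : Pp (-v) := by
  unfold Pp at *; simpa using h

theorem Nn_neg {v : V2} (h : Nn v) : Nn (-v) := by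
  unfold Nn at *; simpa using h

theorem Pp_Nn {v : V2} (h : Pp v) (h' : Nn v) : False := by
  unfold Pp Nn at *; linarith

theorem Sg_mulVec (v : V2) : Sg *ᵥ v = ![v 1, -v 0] := by
  ext i; fin_cases i <;> simp [Sg, Matrix.mulVec, dotProduct, Fin.sum_univ_two]

theorem U_mulVec (lam : ℝ) (a : ℤ) (v : V2) : U lam a *ᵥ v = ![v 0 + a * lam * v 1, v 1] := by
  ext i; fin_cases i <;> simp [U, Matrix.mulVec, dotProduct, Fin.sum_univ_two]

theorem Sg_N {v : V2} (h : Nn v) : Pp (Sg *ᵥ v) := by
  rw [Sg_mulVec]; unfold Pp Nn at *; simp; linarith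

theorem Sg_P {v : V2} (h : Pp v) : Nn (Sg *ᵥ v) := by
  rw [Sg_mulVec]; unfold Pp Nn at *; simp; linarith

theorem U_P {lam : ℝ} (hl : 0 ≤ lam) {a : ℤ} (ha : 0 ≤ a) {v : V2} (h : Pp v) :
    Pp (U lam a *ᵥ v) := by
  rw [U_mulVec]; unfold Pp at *; simp
  have h1 : (0 : ℝ) ≤ (a : ℝ) * lam := mul_nonneg (by exact_mod_cast ha) hl
  nlinarith [mul_nonneg h1 (mul_self_nonneg (v 1))]

theorem U_N {lam : ℝ} (hl : 0 ≤ lam) {a : ℤ} (ha : a ≤ 0) {v : V2} (h : Nn v) :
    Nn (U lam a *ᵥ v) := by
  rw [U_mulVec]; unfold Nn at *; simp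
  have h1 : (0 : ℝ) ≤ (-(a : ℝ)) * lam := mul_nonneg (by
    have : (a : ℝ) ≤ 0 := by exact_mod_cast ha
    linarith) hl
  nlinarith [mul_nonneg h1 (mul_self_nonneg (v 1))]

theorem pm_mulVec {A : M2} (h : A = 1 ∨ A = -1) (v : V2) : A *ᵥ v = v ∨ A *ᵥ v = -v := by
  rcases h with h | h
  · left; rw [h, Matrix.one_mulVec]
  · right; rw [h, Matrix.neg_mulVec, Matrix.one_mulVec]

theorem Pp_of_pm {A : M2} (h : A = 1 ∨ A = -1) {v : V2} (hv : Pp (A *ᵥ v)) : Pp v := by
  rcases pm_mulVec h v with h | h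
  · rwa [h] at hv
  · rw [h] at hv; simpa using Pp_neg hv

theorem Nn_of_pm {A : M2} (h : A = 1 ∨ A = -1) {v : V2} (hv : Nn (A *ᵥ v)) : Nn v := by
  rcases pm_mulVec h v with h | h
  · rwa [h] at hv
  · rw [h] at hv; simpa using Nn_neg hv

/-! ### powers of rho -/

section
variable {m : ℕ} (hm : 3 ≤ m)
include hm

noncomputable def lam (m : ℕ) : ℝ := 2 * Real.cos (Real.pi / m)

theorem theta_pos : 0 < Real.pi / m := by
  have : (0 : ℝ) < m := by exact_mod_cast (by omega : 0 < m)
  have := Real.pi_pos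
  positivity

theorem sin_nonneg_of {k : ℝ} (hk : 0 ≤ k) (hk' : k ≤ m) : 0 ≤ Real.sin (k * (Real.pi / m)) := by
  have h0 : (0 : ℝ) < m := by exact_mod_cast (by omega : 0 < m)
  have hp := theta_pos hm
  apply Real.sin_nonneg_of_nonneg_of_le_pi (by positivity)
  calc k * (Real.pi / m) ≤ m * (Real.pi / m) := by gcongr
    _ = Real.pi := by field_simp

theorem sin_pos_of {k : ℝ} (hk : 0 < k) (hk' : k < m) : 0 < Real.sin (k * (Real.pi / m)) := by
  have h0 : (0 : ℝ) < m := by exact_mod_cast (by omega : 0 < m)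
  have hp := theta_pos hm
  apply Real.sin_pos_of_pos_of_lt_pi (by positivity)
  calc k * (Real.pi / m) < m * (Real.pi / m) := by gcongr
    _ = Real.pi := by field_simp

theorem lam_pos : 0 < lam m := by
  unfold lam
  have h0 : (3 : ℝ) ≤ m := by exact_mod_cast hm
  have hp := Real.pi_pos
  have : 0 < Real.cos (Real.pi / m) := by
    apply Real.cos_pos_of_mem_Ioo
    constructor
    · have := theta_pos hm
      linarith
    · rw [div_lt_div_iff₀ (by linarith) (by norm_num)]
      nlinarith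
  linarith

theorem rho_pow (k : ℕ) : Real.sin (Real.pi / m) • (rho (lam m)) ^ k =
    ((-1 : ℝ) ^ k) • (!![Real.sin ((k + 1) * (Real.pi / m)), -Real.sin (k * (Real.pi / m));
      Real.sin (k * (Real.pi / m)), -Real.sin ((k - 1) * (Real.pi / m))] : M2) := by
  induction k with
  | zero =>
    ext i j
    fin_cases i <;> fin_cases j <;> simp
  | succ k ih =>
    rw [pow_succ, ← smul_mul_assoc, ih, pow_succ, smul_mul_assoc, mul_smul]
    congr 1
    have e1 : Real.sin (((k : ℝ) + 1 + 1) * (Real.pi / m)) =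
        lam m * Real.sin (((k : ℝ) + 1) * (Real.pi / m)) - Real.sin ((k : ℝ) * (Real.pi / m)) := by
      have : ((k : ℝ) + 1 + 1) * (Real.pi / m) = ((k : ℝ) + 1) * (Real.pi / m) + Real.pi / m := by ring
      rw [this, Real.sin_add]
      have : ((k : ℝ)) * (Real.pi / m) = ((k : ℝ) + 1) * (Real.pi / m) - Real.pi / m := by ring
      rw [this, Real.sin_sub]
      unfold lam; ring
    have e2 : Real.sin (((k : ℝ) + 1) * (Real.pi / m)) =
        lam m * Real.sin (((k : ℝ)) * (Real.pi / m)) - Real.sin (((k : ℝ) - 1) * (Real.pi / m)) := by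
      have : ((k : ℝ) + 1) * (Real.pi / m) = ((k : ℝ)) * (Real.pi / m) + Real.pi / m := by ring
      rw [this, Real.sin_add]
      have : ((k : ℝ) - 1) * (Real.pi / m) = ((k : ℝ)) * (Real.pi / m) - Real.pi / m := by ring
      rw [this, Real.sin_sub]
      unfold lam; ring
    ext i j
    fin_cases i <;> fin_cases j <;>
      simp [rho, Matrix.mul_apply, Fin.sum_univ_two]
    · rw [e1]; ring
    · rw [e2]; ring

theorem sin_theta_pos : 0 < Real.sin (Real.pi / m) := by
  have := sin_pos_of hm (k := 1) (by norm_num) (by exact_mod_cast (by omega : 1 < m))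
  simpa using this

theorem rho_m : rho (lam m) ^ m = 1 ∨ rho (lam m) ^ m = -1 := by
  have h := rho_pow hm m
  have hs := sin_theta_pos hm
  have h0 : (m : ℝ) ≠ 0 := by exact_mod_cast (by omega : m ≠ 0)
  have e0 : Real.sin ((m : ℝ) * (Real.pi / m)) = 0 := by
    rw [mul_div_cancel₀ _ h0]; exact Real.sin_pi
  have e1 : Real.sin (((m : ℝ) + 1) * (Real.pi / m)) = - Real.sin (Real.pi / m) := by
    have : ((m : ℝ) + 1) * (Real.pi / m) = Real.pi / m + Real.pi := by field_simp; ring
    rw [this, Real.sin_add_pi]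
  have e2 : Real.sin (((m : ℝ) - 1) * (Real.pi / m)) = Real.sin (Real.pi / m) := by
    have : ((m : ℝ) - 1) * (Real.pi / m) = Real.pi - Real.pi / m := by field_simp
    rw [this, Real.sin_pi_sub]
  rw [e0, e1, e2] at h
  have h2 : (!![-Real.sin (Real.pi / m), -0; 0, -Real.sin (Real.pi / m)] : M2) =
      Real.sin (Real.pi / m) • (-1 : M2) := by
    ext i j
    fin_cases i <;> fin_cases j <;> simp
  rw [h2, smul_comm] at h
  have h3 : rho (lam m) ^ m = ((-1 : ℝ) ^ m) • (-1 : M2) :=
    smul_right_injective _ hs.ne' h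
  rcases neg_one_pow_eq_or ℝ m with h4 | h4
  · right; rw [h3, h4, one_smul]
  · left; rw [h3, h4]; simp

theorem rho_P {k : ℕ} (hk : 0 < k) (hkm : k < m) {v : V2} (h : Nn v) :
    Pp ((rho (lam m)) ^ k *ᵥ v) := by
  have hs := sin_theta_pos hm
  have hr := rho_pow hm k
  have h1 : 0 < Real.sin ((k : ℝ) * (Real.pi / m)) :=
    sin_pos_of hm (by exact_mod_cast hk) (by exact_mod_cast hkm)
  have h2 : 0 ≤ Real.sin (((k : ℝ) + 1) * (Real.pi / m)) :=
    sin_nonneg_of hm (by positivity) (by exact_mod_cast hkm)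
  have h3 : 0 ≤ Real.sin (((k : ℝ) - 1) * (Real.pi / m)) :=
    sin_nonneg_of hm (by
      have : (1 : ℝ) ≤ k := by exact_mod_cast hk
      linarith) (by
      have : (k : ℝ) < m := by exact_mod_cast hkm
      linarith)
  set s := Real.sin (Real.pi / m)
  set A := Real.sin (((k : ℝ) + 1) * (Real.pi / m))
  set B := Real.sin ((k : ℝ) * (Real.pi / m))
  set C := Real.sin (((k : ℝ) - 1) * (Real.pi / m))
  have key : s • ((rho (lam m)) ^ k *ᵥ v) = ((-1 : ℝ) ^ k) • ![A * v 0 - B * v 1, B * v 0 - C * v 1] := by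
    rw [← Matrix.smul_mulVec, hr, Matrix.smul_mulVec]
    congr 1
    ext i; fin_cases i <;> simp [Matrix.mulVec, dotProduct, Fin.sum_univ_two] <;> ring
  have key2 : (s * s) * (((rho (lam m)) ^ k *ᵥ v) 0 * ((rho (lam m)) ^ k *ᵥ v) 1) =
      (A * v 0 - B * v 1) * (B * v 0 - C * v 1) := by
    have a0 := congrFun key 0
    have a1 := congrFun key 1
    simp only [Pi.smul_apply, smul_eq_mul, Matrix.cons_val_zero, Matrix.cons_val_one] at a0 a1
    have hh : ((-1 : ℝ) ^ k) * ((-1 : ℝ) ^ k) = 1 := by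
      rw [← mul_pow]; norm_num
    calc (s * s) * (((rho (lam m)) ^ k *ᵥ v) 0 * ((rho (lam m)) ^ k *ᵥ v) 1) =
        (s * ((rho (lam m)) ^ k *ᵥ v) 0) * (s * ((rho (lam m)) ^ k *ᵥ v) 1) := by ring
      _ = (((-1 : ℝ) ^ k) * ((-1 : ℝ) ^ k)) * ((A * v 0 - B * v 1) * (B * v 0 - C * v 1)) := by
          rw [a0, a1]; ring
      _ = _ := by rw [hh, one_mul]
  have key3 : 0 < (A * v 0 - B * v 1) * (B * v 0 - C * v 1) := by
    unfold Nn at h
    rcases mul_neg_iff.mp h with ⟨h5, h6⟩ | ⟨h5, h6⟩
    · apply mul_pos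
      · nlinarith [mul_nonneg h2 h5.le, mul_pos h1 (neg_pos.mpr h6)]
      · nlinarith [mul_nonneg h3 (neg_pos.mpr h6).le, mul_pos h1 h5]
    · apply mul_pos_of_neg_of_neg
      · nlinarith [mul_nonneg h2 (neg_pos.mpr h5).le, mul_pos h1 h6]
      · nlinarith [mul_nonneg h3 h6.le, mul_pos h1 (neg_pos.mpr h5)]
  unfold Pp
  rw [← key2] at key3
  exact (mul_pos_iff_of_pos_left (mul_pos hs hs)).mp key3

/-! ### tiles -/

/-- `Ti m ε k v`: the vector `v` lies in the tile of sign `ε` (true = positive) and index `k`. -/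
def Ti (m : ℕ) : Bool → ℕ → V2 → Prop
  | true, k, v => Nn ((rho (lam m)) ^ (m - k) *ᵥ v)
  | false, k, v => Nn ((rho (lam m)) ^ k *ᵥ (Sg *ᵥ v))

/-- the start set: `N` before a positive entry, `P` before a negative entry -/
def Stt : Bool → V2 → Prop
  | true, v => Nn v
  | false, v => Pp v

def sg (a : ℤ) : Bool := decide (0 < a)

/-- vectors of a positive tile lie in `P` -/
theorem Ti_true {k : ℕ} (hk : 0 < k) (hkm : k < m) {v : V2} (h : Ti m true k v) : Pp v := by
  have h1 : Pp ((rho (lam m)) ^ k *ᵥ ((rho (lam m)) ^ (m - k) *ᵥ v)) := rho_P hm hk hkm h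
  rw [Matrix.mulVec_mulVec, ← pow_add, show k + (m - k) = m by omega] at h1
  exact Pp_of_pm (rho_m hm) h1

theorem Ti_false {k : ℕ} (hk : 0 < k) (hkm : k < m) {v : V2} (h : Ti m false k v) : Nn v := by
  have h1 : Pp ((rho (lam m)) ^ (m - k) *ᵥ ((rho (lam m)) ^ k *ᵥ (Sg *ᵥ v))) :=
    rho_P hm (by omega) (by omega) h
  rw [Matrix.mulVec_mulVec, ← pow_add, show m - k + k = m by omega] at h1
  have h2 : Pp (Sg *ᵥ v) := Pp_of_pm (rho_m hm) h1
  have h3 := Sg_P h2
  rw [Matrix.mulVec_mulVec, Sg_sq] at h3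
  exact Nn_of_pm (Or.inr rfl) h3

/-- opposite tiles are start sets for each other -/
theorem Ti_Stt {ε : Bool} {k : ℕ} (hk : 0 < k) (hkm : k < m) {v : V2} (h : Ti m ε k v) :
    Stt (!ε) v := by
  cases ε
  · exact Ti_false hm hk hkm h
  · exact Ti_true hm hk hkm h

/-- one entry, from the start set -/
theorem step_start {a : ℤ} (ha : a ≠ 0) {v : V2} (h : Stt (sg a) v) :
    Ti m (sg a) 1 ((U (lam m) a * Sg) *ᵥ v) := by
  have hl := (lam_pos hm).le
  by_cases h0 : 0 < a
  · have e : sg a = true := by simp [sg, h0]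
    rw [e] at h ⊢
    have h1 : Pp (U (lam m) (a - 1) *ᵥ (Sg *ᵥ v)) := U_P hl (by omega) (Sg_N h)
    have h2 : Nn (Sg *ᵥ (U (lam m) (a - 1) *ᵥ (Sg *ᵥ v))) := Sg_P h1
    -- rho^m (Sg w) = ± Sg w
    show Nn (rho (lam m) ^ (m - 1) *ᵥ ((U (lam m) a * Sg) *ᵥ v))
    have h3 : (U (lam m) a * Sg) = -(rho (lam m) * (Sg * (U (lam m) (a - 1) * Sg))) := by
      rw [← U_one_Sg, mul_assoc, ← mul_assoc Sg Sg, Sg_sq, neg_one_mul, mul_neg, neg_neg,
        ← mul_assoc, ← U_add, show (1 : ℤ) + (a - 1) = a by ring]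
    have h4 : rho (lam m) ^ (m - 1) *ᵥ ((U (lam m) a * Sg) *ᵥ v) =
        -(rho (lam m) ^ m *ᵥ (Sg *ᵥ (U (lam m) (a - 1) *ᵥ (Sg *ᵥ v)))) := by
      rw [h3, Matrix.mulVec_mulVec, Matrix.mulVec_mulVec, Matrix.mulVec_mulVec,
        Matrix.mulVec_mulVec, mul_neg, Matrix.neg_mulVec, ← mul_assoc, ← pow_succ,
        show m - 1 + 1 = m by omega, ← mul_assoc (rho (lam m) ^ m) Sg,
        ← mul_assoc (rho (lam m) ^ m * Sg)]
    rw [h4]
    apply Nn_neg
    rcases pm_mulVec (rho_m hm) (Sg *ᵥ (U (lam m) (a - 1) *ᵥ (Sg *ᵥ v))) with h5 | h5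
    · rw [h5]; exact h2
    · rw [h5]; exact Nn_neg h2
  · have e : sg a = false := by simp [sg]; omega
    rw [e] at h ⊢
    have h1 : Nn (U (lam m) (a + 1) *ᵥ (Sg *ᵥ v)) := U_N hl (by omega) (Sg_P h)
    show Nn (rho (lam m) ^ 1 *ᵥ (Sg *ᵥ ((U (lam m) a * Sg) *ᵥ v)))
    have h3 : rho (lam m) ^ 1 *ᵥ (Sg *ᵥ ((U (lam m) a * Sg) *ᵥ v)) =
        -(U (lam m) (a + 1) *ᵥ (Sg *ᵥ v)) := by
      rw [Matrix.mulVec_mulVec, Matrix.mulVec_mulVec, Matrix.mulVec_mulVec, pow_one, ← U_one_Sg,
        mul_assoc (U (lam m) 1) Sg Sg, Sg_sq, mul_neg_one, neg_mul,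
        Matrix.neg_mulVec, ← mul_assoc, ← U_add, add_comm 1 a]
    rw [h3]
    exact Nn_neg h1

/-- one entry `±1`, prolonging a run -/
theorem step_one {a : ℤ} (ha : a = 1 ∨ a = -1) {k : ℕ} (hk : 0 < k) (hkm : k + 1 < m) {v : V2}
    (h : Ti m (sg a) k v) : Ti m (sg a) (k + 1) ((U (lam m) a * Sg) *ᵥ v) := by
  rcases ha with rfl | rfl
  · have e : sg 1 = true := by simp [sg]
    rw [e] at h ⊢
    show Nn (rho (lam m) ^ (m - (k + 1)) *ᵥ ((U (lam m) 1 * Sg) *ᵥ v))
    rw [U_one_Sg, Matrix.mulVec_mulVec, ← pow_succ, show m - (k + 1) + 1 = m - k by omega]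
    exact h
  · have e : sg (-1) = false := by simp [sg]
    rw [e] at h ⊢
    show Nn (rho (lam m) ^ (k + 1) *ᵥ (Sg *ᵥ ((U (lam m) (-1) * Sg) *ᵥ v)))
    have h3 : rho (lam m) ^ (k + 1) *ᵥ (Sg *ᵥ ((U (lam m) (-1) * Sg) *ᵥ v)) =
        -(rho (lam m) ^ k *ᵥ (Sg *ᵥ v)) := by
      have h4 : rho (lam m) * (Sg * (U (lam m) (-1) * Sg)) = -Sg := by
        rw [← U_one_Sg, mul_assoc (U (lam m) 1) Sg, ← mul_assoc Sg Sg, Sg_sq, neg_one_mul,
          mul_neg, ← mul_assoc, ← U_add]
        simp [U_zero]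
      simp only [Matrix.mulVec_mulVec, pow_succ, mul_assoc]
      rw [h4, mul_neg, Matrix.neg_mulVec]
    rw [h3]
    exact Nn_neg h

/-- one entry of the same sign, absolute value at least two -/
theorem step_two {a : ℤ} (ha : 2 ≤ a ∨ a ≤ -2) {k : ℕ} (hk : 0 < k) (hkm : k + 1 < m) {v : V2}
    (h : Ti m (sg a) k v) : Ti m (sg a) 1 ((U (lam m) a * Sg) *ᵥ v) := by
  have hl := (lam_pos hm).le
  rcases ha with ha | ha
  · have e : sg a = true := by simp [sg]; omega
    rw [e] at h ⊢
    have h1 := step_one hm (a := 1) (Or.inl rfl) hk hkm (v := v) (by simpa [sg] using h)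
    have e1 : sg 1 = true := by simp [sg]
    rw [e1] at h1
    have h2 : Pp ((U (lam m) 1 * Sg) *ᵥ v) := Ti_true hm (by omega) hkm h1
    set u := (U (lam m) 1 * Sg) *ᵥ v with hu
    have h3 : Nn (-(Sg *ᵥ u)) := Nn_neg (Sg_P h2)
    have h4 := step_start hm (a := a - 1) (by omega) (v := -(Sg *ᵥ u)) (by
      have : sg (a - 1) = true := by simp [sg]; omega
      rw [this]; exact h3)
    have e2 : sg (a - 1) = true := by simp [sg]; omega
    rw [e2] at h4
    have h5 : (U (lam m) (a - 1) * Sg) *ᵥ (-(Sg *ᵥ u)) = (U (lam m) a * Sg) *ᵥ v := by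
      rw [Matrix.mulVec_neg, Matrix.mulVec_mulVec, mul_assoc, Sg_sq, mul_neg_one,
        Matrix.neg_mulVec, neg_neg, hu, Matrix.mulVec_mulVec, ← mul_assoc, ← U_add,
        show a - 1 + 1 = a by ring]
    rw [h5] at h4
    exact h4
  · have e : sg a = false := by simp [sg]; omega
    rw [e] at h ⊢
    have e1 : sg (-1) = false := by simp [sg]
    have h1 := step_one hm (a := -1) (Or.inr rfl) hk hkm (v := v) (by rw [e1]; exact h)
    rw [e1] at h1
    have h2 : Nn ((U (lam m) (-1) * Sg) *ᵥ v) := Ti_false hm (by omega) hkm h1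
    set u := (U (lam m) (-1) * Sg) *ᵥ v with hu
    have h3 : Pp (-(Sg *ᵥ u)) := Pp_neg (Sg_N h2)
    have e2 : sg (a + 1) = false := by simp [sg]; omega
    have h4 := step_start hm (a := a + 1) (by omega) (v := -(Sg *ᵥ u)) (by
      rw [e2]; exact h3)
    rw [e2] at h4
    have h5 : (U (lam m) (a + 1) * Sg) *ᵥ (-(Sg *ᵥ u)) = (U (lam m) a * Sg) *ᵥ v := by
      rw [Matrix.mulVec_neg, Matrix.mulVec_mulVec, mul_assoc, Sg_sq, mul_neg_one,
        Matrix.neg_mulVec, neg_neg, hu, Matrix.mulVec_mulVec, ← mul_assoc, ← U_add,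
        show a + 1 + -1 = a by ring]
    rw [h5] at h4
    exact h4

/-- a unit of sign `ε` -/
def un (ε : Bool) : ℤ := if ε then 1 else -1

/-- a window: `x, ε, …, ε, y` (`m-2` interior entries), all of sign `ε`. -/
def Window (m : ℕ) (l : List ℤ) : Prop :=
  ∃ (p q : List ℤ) (x y : ℤ) (ε : Bool), x ≠ 0 ∧ y ≠ 0 ∧ sg x = ε ∧ sg y = ε ∧
    l = p ++ x :: (List.replicate (m - 2) (un ε) ++ y :: q)

theorem nf_step (l : List ℤ) (hl : l ≠ []) (h0 : ∀ a ∈ l, a ≠ 0) (hw : ¬ Window m l) :
    ∃ (ε : Bool) (k : ℕ), 0 < k ∧ k < m ∧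
      (∃ (y : ℤ) (q : List ℤ), y ≠ 0 ∧ sg y = ε ∧ l = List.replicate (k - 1) (un ε) ++ y :: q) ∧
      ∀ v : V2, Stt (sg (l.getLast hl)) v → Ti m ε k (Ph (lam m) l *ᵥ v) := by
  induction l with
  | nil => exact absurd rfl hl
  | cons a l ih =>
    have ha : a ≠ 0 := h0 a (by simp)
    by_cases hl' : l = []
    · subst hl'
      refine ⟨sg a, 1, by omega, by omega, ⟨a, [], ha, rfl, by simp⟩, ?_⟩
      intro v hv
      simp only [List.getLast_singleton] at hv
      simp only [Ph, mul_one]
      exact step_start hm ha hv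
    · have hw' : ¬ Window m l := by
        rintro ⟨p, q, x, y, ε, h1, h2, h3, h4, h5⟩
        exact hw ⟨a :: p, q, x, y, ε, h1, h2, h3, h4, by rw [h5]; simp⟩
      obtain ⟨ε, k, hk, hkm, ⟨y, q, hy0, hy, hq⟩, hv⟩ :=
        ih hl' (fun b hb => h0 b (by simp [hb])) hw'
      have hlast : (a :: l).getLast hl = l.getLast hl' := List.getLast_cons hl'
      by_cases hs : sg a = ε
      · -- same sign
        have hkm' : k + 1 < m := by
          by_contra hcon
          have hk' : k = m - 1 := by omega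
          apply hw
          refine ⟨[], q, a, y, ε, ha, hy0, hs, hy, ?_⟩
          rw [hq, hk', show m - 1 - 1 = m - 2 by omega]
          simp
        by_cases hun : a = un ε
        · refine ⟨ε, k + 1, by omega, hkm', ⟨y, q, hy0, hy, ?_⟩, ?_⟩
          · rw [hq, hun]
            rw [show k + 1 - 1 = (k - 1) + 1 by omega, List.replicate_succ, List.cons_append]
          · intro v hv'
            rw [hlast] at hv'
            have h1 := hv v hv'
            rw [← hs] at h1 ⊢
            have h2 := step_one hm (a := a) (by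
              rw [hun]; unfold un; cases ε <;> simp) hk hkm' h1
            simp only [Ph]
            rw [← Matrix.mulVec_mulVec]
            exact h2
        · refine ⟨ε, 1, by omega, by omega, ⟨a, l, ha, hs, by simp⟩, ?_⟩
          intro v hv'
          rw [hlast] at hv'
          have h1 := hv v hv'
          rw [← hs] at h1 ⊢
          have h2 := step_two hm (a := a) (by
            rw [← hs] at hun
            unfold un sg at hun
            by_cases h3 : 0 < a
            · simp [h3] at hun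
              left; omega
            · simp [h3] at hun
              right; omega) hk hkm' h1
          simp only [Ph]
          rw [← Matrix.mulVec_mulVec]
          exact h2
      · -- sign change
        refine ⟨sg a, 1, by omega, by omega, ⟨a, l, ha, rfl, by simp⟩, ?_⟩
        intro v hv'
        rw [hlast] at hv'
        have h1 := hv v hv'
        have h2 := Ti_Stt hm hk hkm h1
        have h3 : (!ε) = sg a := by
          cases ε <;> cases h4 : sg a <;> simp_all
        rw [h3] at h2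
        simp only [Ph]
        rw [← Matrix.mulVec_mulVec]
        exact step_start hm ha h2

/-- not all of `P` goes to `N` under a power of `ρ` -/
theorem exists_bad {k : ℕ} (hk : 0 < k) (hkm : k < m) :
    ∃ u : V2, Pp u ∧ ¬ Nn ((rho (lam m)) ^ k *ᵥ u) := by
  have hw : Nn ![(1 : ℝ), -1] := by unfold Nn; simp
  by_cases h : k + 1 < m
  · refine ⟨(rho (lam m)) ^ 1 *ᵥ ![1, -1], rho_P hm (by omega) (by omega) hw, ?_⟩
    intro h1
    rw [Matrix.mulVec_mulVec, ← pow_add] at h1
    exact Pp_Nn (rho_P hm (by omega) h hw) h1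
  · refine ⟨(rho (lam m)) ^ 2 *ᵥ ![1, -1], rho_P hm (by omega) (by omega) hw, ?_⟩
    intro h1
    rw [Matrix.mulVec_mulVec, ← pow_add, show k + 2 = m + 1 by omega, pow_add,
      ← Matrix.mulVec_mulVec] at h1
    exact Pp_Nn (rho_P hm (by omega) (by omega) hw) (Nn_of_pm (rho_m hm) h1)

theorem nf (l : List ℤ) (hl : l ≠ []) (h0 : ∀ a ∈ l, a ≠ 0) (hw : ¬ Window m l) :
    ¬ E (Ph (lam m) l) := by
  intro hE
  obtain ⟨ε, k, hk, hkm, -, hv⟩ := nf_step hm l hl h0 hw
  have hv' : ∀ v : V2, Stt (sg (l.getLast hl)) v → Ti m ε k v := by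
    intro v hs
    have h1 := hv v hs
    rcases pm_mulVec hE v with h2 | h2
    · rwa [h2] at h1
    · rw [h2] at h1
      cases ε
      · have h3 : Nn ((rho (lam m)) ^ k *ᵥ (Sg *ᵥ (-v))) := h1
        show Nn ((rho (lam m)) ^ k *ᵥ (Sg *ᵥ v))
        rw [Matrix.mulVec_neg, Matrix.mulVec_neg] at h3
        simpa using Nn_neg h3
      · have h3 : Nn ((rho (lam m)) ^ (m - k) *ᵥ (-v)) := h1
        show Nn ((rho (lam m)) ^ (m - k) *ᵥ v)
        rw [Matrix.mulVec_neg] at h3
        simpa using Nn_neg h3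
  have hN : Nn ![(1 : ℝ), -1] := by unfold Nn; simp
  have hP : Pp ![(1 : ℝ), 1] := by unfold Pp; simp
  cases hs : sg (l.getLast hl)
  · rw [hs] at hv'
    cases ε
    · exact Pp_Nn hP (Ti_false hm hk hkm (hv' _ hP))
    · obtain ⟨u, hu, hu'⟩ := exists_bad hm (k := m - k) (by omega) (by omega)
      exact hu' (hv' u hu)
  · rw [hs] at hv'
    cases ε
    · obtain ⟨u, hu, hu'⟩ := exists_bad hm hk hkm
      have h1 : Stt true (-(Sg *ᵥ u)) := Nn_neg (Sg_P hu)
      have h2 : Nn ((rho (lam m)) ^ k *ᵥ (Sg *ᵥ (-(Sg *ᵥ u)))) := hv' _ h1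
      rw [Matrix.mulVec_neg, Matrix.mulVec_mulVec, Sg_sq, Matrix.neg_mulVec, neg_neg,
        Matrix.one_mulVec] at h2
      exact hu' h2
    · exact Pp_Nn (Ti_true hm hk hkm (hv' _ hN)) hN

/-! ### the rewriting -/

omit hm in
theorem Ph_replicate (l0 : ℝ) (k : ℕ) : Ph l0 (List.replicate k 1) = rho l0 ^ k := by
  induction k with
  | zero => simp [Ph]
  | succ k ih => rw [List.replicate_succ, Ph, ih, U_one_Sg, pow_succ']

theorem window_red (p q : List ℤ) (x y : ℤ)
    (h : E (Ph (lam m) (p ++ x :: (List.replicate (m - 2) 1 ++ y :: q)))) :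
    E (Ph (lam m) (p ++ (x - 1) :: (y - 1) :: q)) := by
  have e : Ph (lam m) (p ++ x :: (List.replicate (m - 2) 1 ++ y :: q)) =
      -(Ph (lam m) p * (U (lam m) (x - 1) * (rho (lam m) ^ m * (Sg * (U (lam m) (y - 1) *
        (Sg * Ph (lam m) q)))))) := by
    rw [Ph_append, Ph, Ph_append, Ph_replicate, Ph]
    have h1 : U (lam m) x * Sg = U (lam m) (x - 1) * rho (lam m) := by
      rw [← U_one_Sg, ← mul_assoc, ← U_add, show x - 1 + 1 = x by ring]
    have h2 : U (lam m) y * Sg = -(rho (lam m) * (Sg * (U (lam m) (y - 1) * Sg))) := by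
      rw [← U_one_Sg, mul_assoc (U (lam m) 1) Sg, ← mul_assoc Sg Sg, Sg_sq, neg_one_mul,
        mul_neg, neg_neg, ← mul_assoc, ← U_add, show (1 : ℤ) + (y - 1) = y by ring]
    rw [h1, h2]
    have h3 : rho (lam m) ^ m = rho (lam m) * (rho (lam m) ^ (m - 2) * rho (lam m)) := by
      rw [← pow_succ, ← pow_succ', show m - 2 + 1 + 1 = m by omega]
    rw [h3]
    simp only [mul_assoc, neg_mul, mul_neg]
  rw [e] at h
  have h' := E_neg h
  rw [neg_neg] at h'
  have e2 : Ph (lam m) (p ++ (x - 1) :: (y - 1) :: q) =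
      Ph (lam m) p * (U (lam m) (x - 1) * (Sg * (U (lam m) (y - 1) * (Sg * Ph (lam m) q)))) := by
    rw [Ph_append, Ph, Ph]
    simp only [mul_assoc]
  rcases rho_m hm with h4 | h4
  · rw [h4, one_mul] at h'
    rw [e2]; exact h'
  · rw [h4, neg_one_mul, mul_neg, mul_neg] at h'
    have h'' := E_neg h'
    rw [neg_neg] at h''
    rw [e2]; exact h''

omit hm in
theorem not_E_Sg : ¬ E Sg := by
  rintro (h | h)
  · have := congrFun (congrFun h 0) 1
    simp [Sg] at this
  · have := congrFun (congrFun h 0) 1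
    simp [Sg] at this

/-- number of negative entries -/
def cn (l : List ℤ) : ℕ := l.countP (fun a => decide (a < 0))

omit hm in
theorem cn_append (p q : List ℤ) : cn (p ++ q) = cn p + cn q := by
  unfold cn; exact List.countP_append

omit hm in
theorem cn_cons (a : ℤ) (l : List ℤ) : cn (a :: l) = cn l + if a < 0 then 1 else 0 := by
  unfold cn; rw [List.countP_cons]; simp

omit hm in
theorem cn_replicate_neg (k : ℕ) : cn (List.replicate k (-1)) = k := by
  induction k with
  | zero => rfl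
  | succ k ih => rw [List.replicate_succ, cn_cons, ih]; simp

omit hm in
theorem cn_replicate_pos (k : ℕ) : cn (List.replicate k 1) = 0 := by
  induction k with
  | zero => rfl
  | succ k ih => rw [List.replicate_succ, cn_cons, ih]; simp

theorem claim (n : ℕ) : ∀ l : List ℤ, l.length = n → E (Ph (lam m) l) → cn l ≤ m - 1 →
    0 ≤ l.sum ∧ (l ≠ [] → (∀ a ∈ l, a ≠ 0) → 0 < l.sum) := by
  induction n using Nat.strong_induction_on with
  | _ n ih =>
  intro l hn hE hc
  by_cases hz : (0 : ℤ) ∈ l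
  · refine ⟨?_, fun _ h => absurd rfl (h 0 hz)⟩
    obtain ⟨p, q, rfl⟩ := List.append_of_mem hz
    have h1 : E (Ph (lam m) (0 :: (q ++ p))) := by
      rw [Ph_append] at hE
      have := E_comm hE
      rw [← Ph_append] at this
      exact this
    have hsum : (p ++ 0 :: q).sum = (q ++ p).sum := by
      simp [List.sum_append, List.sum_cons]; ring
    have hcn : cn (p ++ 0 :: q) = cn (q ++ p) := by
      rw [cn_append, cn_cons, cn_append]; simp; ring
    have hlen : (p ++ 0 :: q).length = (q ++ p).length + 1 := by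
      simp; omega
    rw [hsum]
    rw [hcn] at hc
    rw [hlen] at hn
    generalize hr : q ++ p = r at h1 hn hc ⊢
    rcases r with _ | ⟨y, r⟩
    · exfalso
      rw [Ph, Ph, U_zero, one_mul, mul_one] at h1
      exact not_E_Sg h1
    · rcases List.eq_nil_or_concat r with hr' | ⟨r'', x, hr'⟩
      · subst hr'
        have hy : y = 0 := by
          rw [Ph, Ph, Ph, U_zero, one_mul, mul_one] at h1
          have h2 := E_comm h1
          rw [mul_assoc, Sg_sq, mul_neg_one] at h2
          have h3 := E_neg h2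
          rw [neg_neg] at h3
          have hl := lam_pos hm
          rcases h3 with h | h
          · have := congrFun (congrFun h 0) 1
            simp [U] at this
            rcases this with h | h
            · exact h
            · exact absurd h hl.ne'
          · have := congrFun (congrFun h 0) 0
            simp [U] at this
            norm_num at this
        simp [hy]
      · have hr'' : r = r'' ++ [x] := by rw [hr', List.concat_eq_append]
        subst hr''
        have h2 : E (Ph (lam m) ((x + y) :: r'')) := by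
          have e1 : Ph (lam m) (0 :: (y :: (r'' ++ [x]))) =
              (Sg * (U (lam m) y * (Sg * Ph (lam m) r''))) * (U (lam m) x * Sg) := by
            rw [Ph, Ph, Ph_append, Ph, Ph, U_zero, one_mul, mul_one]
            simp only [mul_assoc]
          rw [e1] at h1
          have h3 := E_comm h1
          have e2 : U (lam m) x * Sg * (Sg * (U (lam m) y * (Sg * Ph (lam m) r''))) =
              - Ph (lam m) ((x + y) :: r'') := by
            rw [Ph, U_add, mul_assoc (U (lam m) x) Sg, ← mul_assoc Sg Sg, Sg_sq, neg_one_mul,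
              mul_neg]
            simp only [mul_assoc]
          rw [e2] at h3
          have h4 := E_neg h3
          rwa [neg_neg] at h4
        have h3 := (ih ((x + y) :: r'').length (by
          rw [← hn]; simp) _ rfl h2 (by
          refine le_trans ?_ hc
          rw [cn_cons, cn_cons, cn_append, cn_cons]
          split_ifs <;> omega)).1
        simp [List.sum_cons, List.sum_append] at h3 ⊢
        linarith
  · have h0 : ∀ a ∈ l, a ≠ 0 := by
      intro a ha he
      exact hz (he ▸ ha)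
    by_cases hl : l = []
    · subst hl
      exact ⟨by simp, fun h => absurd rfl h⟩
    · have hW : Window m l := by
        by_contra hcon
        exact nf hm l hl h0 hcon hE
      suffices h : 0 < l.sum from ⟨h.le, fun _ _ => h⟩
      obtain ⟨p, q, x, y, ε, hx0, hy0, hx, hy, rfl⟩ := hW
      cases ε
      · exfalso
        have hx' : x < 0 := by simp [sg] at hx; omega
        have hy' : y < 0 := by simp [sg] at hy; omega
        simp only [un, Bool.false_eq_true, if_false] at hc
        rw [cn_append, cn_cons, cn_append, cn_cons, cn_replicate_neg, if_pos hx', if_pos hy'] at hc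
        omega
      · have hx' : 0 < x := by simpa [sg] using hx
        have hy' : 0 < y := by simpa [sg] using hy
        simp only [un, if_true] at hc hE hn ⊢
        have h2 := window_red hm p q x y hE
        have h3 := (ih (p ++ (x - 1) :: (y - 1) :: q).length (by
          rw [← hn]; simp; omega) _ rfl h2 (by
          refine le_trans ?_ hc
          rw [cn_append, cn_cons, cn_cons, cn_append, cn_cons, cn_append, cn_cons,
            cn_replicate_pos]
          split_ifs <;> omega)).1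
        simp [List.sum_cons, List.sum_append] at h3 ⊢
        have : (3 : ℤ) ≤ m := by exact_mod_cast hm
        have h5 : ((m - 2 : ℕ) : ℤ) = m - 2 := by omega
        rw [h5]
        linarith

/-! ### the mirror -/

def Dd : M2 := !![1, 0; 0, -1]

omit hm in
theorem Dd_sq : Dd * Dd = 1 := by
  unfold Dd
  ext i j
  fin_cases i <;> fin_cases j <;> simp [Matrix.mul_apply, Fin.sum_univ_two]

omit hm in
theorem Dd_U (l0 : ℝ) (a : ℤ) : U l0 (-a) * Sg * Dd = -(Dd * (U l0 a * Sg)) := by
  unfold Dd U Sg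
  ext i j
  fin_cases i <;> fin_cases j <;> simp [Matrix.mul_apply, Fin.sum_univ_two]

omit hm in
theorem mirror (l0 : ℝ) (l : List ℤ) :
    Ph l0 (l.map (fun a => -a)) * Dd = Dd * Ph l0 l ∨
      Ph l0 (l.map (fun a => -a)) * Dd = -(Dd * Ph l0 l) := by
  induction l with
  | nil => left; simp [Ph]
  | cons a l ih =>
    simp only [List.map_cons, Ph]
    rcases ih with h | h
    · right
      rw [mul_assoc, h, ← mul_assoc, Dd_U]
      simp only [mul_assoc, neg_mul]
    · left
      rw [mul_assoc, h, mul_neg, ← mul_assoc, Dd_U]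
      simp only [mul_assoc, neg_mul, neg_neg]

omit hm in
theorem mirror_E (l0 : ℝ) (l : List ℤ) (h : E (Ph l0 l)) : E (Ph l0 (l.map (fun a => -a))) := by
  have key : ∀ A : M2, A * Dd = Dd ∨ A * Dd = -Dd → E A := by
    intro A hA
    rcases hA with hA | hA
    · left
      calc A = A * Dd * Dd := by rw [mul_assoc, Dd_sq, mul_one]
        _ = 1 := by rw [hA, Dd_sq]
    · right
      calc A = A * Dd * Dd := by rw [mul_assoc, Dd_sq, mul_one]
        _ = -1 := by rw [hA, neg_mul, Dd_sq]
  apply key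
  rcases mirror l0 l with h1 | h1 <;> rcases h with h2 | h2 <;> rw [h1, h2]
  · left; simp
  · right; simp
  · right; simp
  · left; simp

omit hm in
theorem cn_neg (l : List ℤ) (h0 : ∀ a ∈ l, a ≠ 0) :
    cn l + cn (l.map (fun a => -a)) = l.length := by
  induction l with
  | nil => rfl
  | cons a l ih =>
    have ha : a ≠ 0 := h0 a (by simp)
    have := ih (fun b hb => h0 b (by simp [hb]))
    rw [List.map_cons, cn_cons, cn_cons, List.length_cons]
    rcases lt_or_gt_of_ne ha with h | h
    · rw [if_pos h, if_neg (by omega)]; omega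
    · rw [if_neg (by omega), if_pos (by omega)]; omega

omit hm in
theorem sum_neg (l : List ℤ) : (l.map (fun a => -a)).sum = -l.sum := by
  induction l with
  | nil => simp
  | cons a l ih => simp [ih]; ring

theorem final (l : List ℤ) (hl : l ≠ []) (h0 : ∀ a ∈ l, a ≠ 0) (hlen : l.length ≤ 2 * (m - 1))
    (hE : E (Ph (lam m) l)) : l.sum ≠ 0 := by
  have h1 := cn_neg l h0
  by_cases hc : cn l ≤ m - 1
  · exact ((claim hm _ l rfl hE hc).2 hl h0).ne'
  · have hc' : cn (l.map (fun a => -a)) ≤ m - 1 := by omega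
    have h2 := (claim hm _ (l.map (fun a => -a)) rfl (mirror_E _ _ hE) hc').2 (by simpa using hl)
      (by
        intro a ha
        obtain ⟨b, hb, rfl⟩ := List.mem_map.mp ha
        have := h0 b hb
        omega)
    rw [sum_neg] at h2
    omega

end

end MG

open MG

theorem mat_girth (m : ℕ) (hm : 3 ≤ m) (j : ℕ) (a b : ℕ → ℤ) (hj : 0 < j) (hjm : j < m)
    (hab : ∀ i, i < j → a i ≠ 0 ∧ b i ≠ 0) (hsum : ∑ i ∈ Finset.range j, (a i + b i) = 0) :
    ((List.range j).map fun i =>
      (!![1, (a i : ℝ) * (2 * Real.cos (Real.pi / m)); 0, 1] *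
        !![1, 0; -((b i : ℝ) * (2 * Real.cos (Real.pi / m))), 1] :
          Matrix (Fin 2) (Fin 2) ℝ)).prod ≠ 1 := by
  intro hprod
  let L : ℕ → List ℤ := fun j => (List.range j).flatMap fun i => [a i, b i]
  have hL : ∀ j, L (j + 1) = L j ++ [a j, b j] := by
    intro j
    simp [L, List.range_succ, List.flatMap_append]
  have hU : ∀ x y : ℤ, (!![1, (x : ℝ) * (2 * Real.cos (Real.pi / m)); 0, 1] *
        !![1, 0; -((y : ℝ) * (2 * Real.cos (Real.pi / m))), 1] : Matrix (Fin 2) (Fin 2) ℝ) =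
      -Ph (lam m) [x, y] := by
    intro x y
    simp only [Ph, U, Sg, lam]
    ext i j
    fin_cases i <;> fin_cases j <;> simp [Matrix.mul_apply, Fin.sum_univ_two]
  have key : ∀ j, ((List.range j).map fun i =>
      (!![1, (a i : ℝ) * (2 * Real.cos (Real.pi / m)); 0, 1] *
        !![1, 0; -((b i : ℝ) * (2 * Real.cos (Real.pi / m))), 1] :
          Matrix (Fin 2) (Fin 2) ℝ)).prod = Ph (lam m) (L j) ∨
      ((List.range j).map fun i =>
      (!![1, (a i : ℝ) * (2 * Real.cos (Real.pi / m)); 0, 1] *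
        !![1, 0; -((b i : ℝ) * (2 * Real.cos (Real.pi / m))), 1] :
          Matrix (Fin 2) (Fin 2) ℝ)).prod = -Ph (lam m) (L j) := by
    intro j
    induction j with
    | zero => left; simp [L, Ph]
    | succ j ih =>
      rw [List.range_succ, List.map_append, List.prod_append, hL, Ph_append, List.map_singleton,
        List.prod_singleton, hU]
      rcases ih with ih | ih
      · right; rw [ih, mul_neg]
      · left; rw [ih, neg_mul_neg]
  have hE : E (Ph (lam m) (L j)) := by
    rcases key j with h | h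
    · left; rw [← h, hprod]
    · right
      rw [hprod] at h
      rw [h, neg_neg]
  have hlen : ∀ j, (L j).length = 2 * j := by
    intro j
    induction j with
    | zero => rfl
    | succ j ih => rw [hL, List.length_append, ih]; simp; ring
  have hsum' : ∀ j, (L j).sum = ∑ i ∈ Finset.range j, (a i + b i) := by
    intro j
    induction j with
    | zero => rfl
    | succ j ih => rw [hL, List.sum_append, ih, Finset.sum_range_succ]; simp
  refine final hm (L j) ?_ ?_ ?_ hE (by rw [hsum', hsum])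
  · intro h
    have := hlen j
    rw [h] at this
    simp at this
    omega
  · intro x hx
    simp only [L, List.mem_flatMap, List.mem_range, List.mem_cons, List.not_mem_nil,
      or_false] at hx
    obtain ⟨i, hi, rfl | rfl⟩ := hx
    · exact (hab i hi).1
    · exact (hab i hi).2
  · rw [hlen]; omega

end Pool.Agent.helper18.FJ3
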