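import Pool.Agent.helper34.FJ3.DefsB

set_option autoImplicit false

/-! # FJ3-B5c: sections of discrete geodesics (modulo B5a, B5b) -/

namespace Pool.Agent.helper18.FJ3

open Pool.Agent.helper34.FJ3

/-- the statement B5a for given `M`, `r0`, `k` -/
def ConvStmt (M : Type) [MetricSpace M] (r0 : ℝ) (k : ℕ) : Prop :=
  ∀ (L L' : ℝ) (q q' : ℕ → M), KGeo k L q → KGeo k L' q' → L ≤ k * (r0 / 16) → L' ≤ k * (r0 / 16) →
    q 0 = q' 0 → (∀ i, i ≤ k → dist (q i) (q' i) ≤ 2 * (r0 / 16)) →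
    ∀ i, i ≤ k → dist (q i) (q' i) ≤ (i / k : ℝ) * dist (q k) (q' k)

/-- the statement B5b for given `M`, `r0`, `k` -/
def MoveStmt (M : Type) [MetricSpace M] (r0 : ℝ) (k : ℕ) : Prop :=
  ∀ (L : ℝ) (q : ℕ → M), KGeo k L q → ∀ (x' : M), L + dist (q k) x' ≤ k * (r0 / 16) →
    dist (q k) x' ≤ r0 / 16 →
    ∃ (q' : ℕ → M) (L' : ℝ), KGeo k L' q' ∧ q' 0 = q 0 ∧ q' k = x' ∧
      (∀ i, i ≤ k → dist (q i) (q' i) ≤ (i / k : ℝ) * dist (q k) x') ∧
      L' ≤ L + dist (q k) x'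

variable {M : Type} [MetricSpace M] {r0 : ℝ} {k : ℕ}

theorem frac_mul_le (hk : 0 < k) {i : ℕ} (hi : i ≤ k) {d : ℝ} (hd : 0 ≤ d) : (i / k : ℝ) * d ≤ d := by
  have hk' : (0 : ℝ) < k := by exact_mod_cast hk
  have h1 : (i / k : ℝ) ≤ 1 := by
    rw [div_le_one hk']
    exact_mod_cast hi
  calc (i / k : ℝ) * d ≤ 1 * d := mul_le_mul_of_nonneg_right h1 hd
    _ = d := one_mul d

theorem kgeo_ext {L L' : ℝ} {q q' : ℕ → M} (hq : KGeo k L q) (hq' : KGeo k L' q')
    (h : ∀ i, i ≤ k → q i = q' i) : q = q' := by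
  funext i
  rcases Nat.lt_or_ge i k with hi | hi
  · exact h i hi.le
  · rw [hq.stab i hi, hq'.stab i hi, h k le_rfl]

/-- the points of the segment -/
noncomputable def pt {E : Type} [NormedAddCommGroup E] [NormedSpace ℝ E] (c0 c : E) (m j : ℕ) : E :=
  c0 + ((j : ℝ) / m) • (c - c0)

section
variable {E : Type} [NormedAddCommGroup E] [NormedSpace ℝ E]

theorem pt_zero (c0 c : E) (m : ℕ) : pt c0 c m 0 = c0 := by simp [pt]

theorem pt_last (c0 c : E) {m : ℕ} (hm : 0 < m) : pt c0 c m m = c := by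
  have : (m : ℝ) ≠ 0 := by exact_mod_cast hm.ne'
  simp [pt, div_self this]

theorem pt_mem {C : Set E} (hC : Convex ℝ C) {c0 c : E} (hc0 : c0 ∈ C) (hc : c ∈ C) {m j : ℕ} (hm : 0 < m)
    (hj : j ≤ m) : pt c0 c m j ∈ C := by
  have hm' : (0 : ℝ) < m := by exact_mod_cast hm
  have h1 : (0 : ℝ) ≤ (j : ℝ) / m := by positivity
  have h2 : (j : ℝ) / m ≤ 1 := by rw [div_le_one hm']; exact_mod_cast hj
  have := hC.add_smul_sub_mem hc0 hc ⟨h1, h2⟩
  exact this

theorem pt_step (c0 c : E) {m : ℕ} (hm : 0 < m) (j : ℕ) :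
    ‖pt c0 c m j - pt c0 c m (j + 1)‖ = ‖c - c0‖ / m := by
  have hm' : (0 : ℝ) < m := by exact_mod_cast hm
  have : pt c0 c m j - pt c0 c m (j + 1) = (-(1 / (m : ℝ))) • (c - c0) := by
    simp only [pt]
    rw [add_sub_add_left_eq_sub, ← sub_smul]
    congr 1
    push_cast
    ring
  rw [this, norm_smul, norm_neg, Real.norm_of_nonneg (by positivity)]
  ring

theorem pt_diff (c0 c c' : E) (m j : ℕ) : ‖pt c0 c m j - pt c0 c' m j‖ = (j / m : ℝ) * ‖c - c'‖ := by
  have : pt c0 c m j - pt c0 c' m j = ((j : ℝ) / m) • (c - c') := by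
    simp only [pt]
    rw [add_sub_add_left_eq_sub, ← smul_sub, sub_sub_sub_cancel_right]
  rw [this, norm_smul, Real.norm_of_nonneg (by positivity)]

theorem section_unique_of (h : LCN M r0) (conv : ConvStmt M r0 k) (hk : 0 < k)
    (C : Set E) (hC : Convex ℝ C) (c0 : E) (hc0 : c0 ∈ C) (x : E → M) (Λ : ℝ)
    (hΛ : 0 < Λ) (O : M) (s s' : E → ℕ → M) (ℓ ℓ' : E → ℝ)
    (hs : IsSection k O (r0 / 16) Λ C x s ℓ) (hs' : IsSection k O (r0 / 16) Λ C x s' ℓ')
    (h0 : s c0 = s' c0) : ∀ c ∈ C, s c = s' c := by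
  intro c hc
  have hr : 0 < r0 / 16 := by linarith [h.1]
  obtain ⟨m, hm⟩ := exists_nat_gt (Λ * ‖c - c0‖ / (r0 / 16))
  have hm0 : 0 < m := by
    have h1 : (0 : ℝ) ≤ Λ * ‖c - c0‖ / (r0 / 16) := by positivity
    exact_mod_cast lt_of_le_of_lt h1 hm
  have hm' : (0 : ℝ) < m := by exact_mod_cast hm0
  have hstep : Λ * (‖c - c0‖ / m) ≤ r0 / 16 := by
    rw [div_lt_iff₀ hr] at hm
    rw [← mul_div_assoc, div_le_iff₀ hm']
    linarith
  have key : ∀ j, j ≤ m → s (pt c0 c m j) = s' (pt c0 c m j) := by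
    intro j
    induction j with
    | zero => intro _; rw [pt_zero]; exact h0
    | succ j ih =>
      intro hj
      have e := ih (by omega)
      have m1 := pt_mem hC hc0 hc hm0 (by omega : j ≤ m)
      have m2 := pt_mem hC hc0 hc hm0 hj
      have hn : Λ * ‖pt c0 c m j - pt c0 c m (j + 1)‖ ≤ r0 / 16 := by
        rw [pt_step c0 c hm0]; exact hstep
      have hd := hs.near _ m1 _ m2 hn
      have hd' := hs'.near _ m1 _ m2 hn
      have hcv := conv (ℓ (pt c0 c m (j + 1))) (ℓ' (pt c0 c m (j + 1))) (s (pt c0 c m (j + 1)))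
        (s' (pt c0 c m (j + 1))) (hs.geo _ m2) (hs'.geo _ m2) (hs.len _ m2) (hs'.len _ m2)
        (by rw [hs.start _ m2, hs'.start _ m2]) (by
          intro i hi
          have h1 := hd i hi
          have h2 := hd' i hi
          rw [← e] at h2
          have h3 := dist_triangle_left (s (pt c0 c m (j + 1)) i) (s' (pt c0 c m (j + 1)) i)
            (s (pt c0 c m j) i)
          linarith)
      refine kgeo_ext (hs.geo _ m2) (hs'.geo _ m2) fun i hi => ?_
      have h4 := hcv i hi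
      rw [hs.fin _ m2, hs'.fin _ m2, dist_self, mul_zero] at h4
      exact dist_le_zero.1 h4
  have := key m le_rfl
  rwa [pt_last c0 c hm0] at this

theorem exists_section_of (h : LCN M r0) (conv : ConvStmt M r0 k) (move : MoveStmt M r0 k)
    (hk : 0 < k) (C : Set E) (hC : Convex ℝ C) (c0 : E) (hc0 : c0 ∈ C)
    (x : E → M) (Λ : ℝ) (hΛ : 0 < Λ)
    (hx : ∀ c ∈ C, ∀ c' ∈ C, dist (x c) (x c') ≤ Λ * ‖c - c'‖) (B : ℝ)
    (hB : ∀ c ∈ C, ‖c - c0‖ ≤ B) {L : ℝ} {q : ℕ → M} (hq : KGeo k L q) (hqx : q k = x c0)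
    (hL : L + Λ * B ≤ k * (r0 / 16)) :
    ∃ (s : E → ℕ → M) (ℓ : E → ℝ), IsSection k (q 0) (r0 / 16) Λ C x s ℓ ∧ s c0 = q ∧
      ∀ c ∈ C, ℓ c ≤ L + Λ * ‖c - c0‖ := by
  classical
  have hr : 0 < r0 / 16 := by linarith [h.1]
  have hB0 : 0 ≤ B := (norm_nonneg _).trans (hB c0 hc0)
  obtain ⟨m, hm⟩ := exists_nat_gt (Λ * B / (r0 / 32))
  have hm0 : 0 < m := by
    have h1 : (0 : ℝ) ≤ Λ * B / (r0 / 32) := by
      have : 0 < r0 / 32 := by linarith [h.1]
      positivity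
    exact_mod_cast lt_of_le_of_lt h1 hm
  have hm' : (0 : ℝ) < m := by exact_mod_cast hm0
  have hstep : ∀ c ∈ C, Λ * (‖c - c0‖ / m) ≤ r0 / 32 := by
    intro c hc
    rw [div_lt_iff₀ (by linarith [h.1])] at hm
    rw [← mul_div_assoc, div_le_iff₀ hm']
    have := mul_le_mul_of_nonneg_left (hB c hc) hΛ.le
    linarith
  -- invariants
  let P : E → ℕ → (ℕ → M) × ℝ → Prop := fun c j S =>
    KGeo k S.2 S.1 ∧ S.1 0 = q 0 ∧ S.1 k = x (pt c0 c m j) ∧ S.2 ≤ L + Λ * ((j / m : ℝ) * ‖c - c0‖)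
  have hstepx : ∀ c ∈ C, ∀ j, j < m → dist (x (pt c0 c m j)) (x (pt c0 c m (j + 1))) ≤
      Λ * (‖c - c0‖ / m) := by
    intro c hc j hj
    have := hx _ (pt_mem hC hc0 hc hm0 hj.le) _ (pt_mem hC hc0 hc hm0 hj)
    rwa [pt_step c0 c hm0] at this
  have hnext : ∀ c j S, ∃ S' : (ℕ → M) × ℝ, c ∈ C → j < m → P c j S →
      P c (j + 1) S' ∧ ∀ i, i ≤ k → dist (S.1 i) (S'.1 i) ≤
        (i / k : ℝ) * dist (x (pt c0 c m j)) (x (pt c0 c m (j + 1))) := by
    intro c j S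
    by_cases hcond : c ∈ C ∧ j < m ∧ P c j S
    · obtain ⟨hc, hj, h1, h2, h3, h4⟩ := hcond
      have e1 := hstepx c hc j hj
      have e2 : S.2 + dist (S.1 k) (x (pt c0 c m (j + 1))) ≤
          L + Λ * (((j + 1 : ℕ) / m : ℝ) * ‖c - c0‖) := by
        rw [h3]
        push_cast
        have : Λ * (((j : ℝ) + 1) / m * ‖c - c0‖) = Λ * ((j / m : ℝ) * ‖c - c0‖) + Λ * (‖c - c0‖ / m) := by
          ring
        linarith
      have e3 : L + Λ * (((j + 1 : ℕ) / m : ℝ) * ‖c - c0‖) ≤ k * (r0 / 16) := by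
        have h5 : ((j + 1 : ℕ) / m : ℝ) * ‖c - c0‖ ≤ B :=
          (frac_mul_le hm0 (by omega : j + 1 ≤ m) (norm_nonneg _)).trans (hB c hc)
        have := mul_le_mul_of_nonneg_left h5 hΛ.le
        linarith
      obtain ⟨q', L', g1, g2, g3, g4, g5⟩ := move S.2 S.1 h1 (x (pt c0 c m (j + 1))) (e2.trans e3) (by
        rw [h3]
        have := hstep c hc
        linarith)
      refine ⟨(q', L'), fun _ _ _ => ⟨⟨g1, g2.trans h2, g3, g5.trans e2⟩, fun i hi => ?_⟩⟩
      have := g4 i hi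
      rwa [h3] at this
    · exact ⟨S, fun a b c => absurd ⟨a, b, c⟩ hcond⟩
  choose nxt hnxt using hnext
  let F : E → ℕ → (ℕ → M) × ℝ := fun c j => Nat.rec (q, L) (fun j S => nxt c j S) j
  have hF0 : ∀ c, F c 0 = (q, L) := fun c => rfl
  have hFs : ∀ c j, F c (j + 1) = nxt c j (F c j) := fun c j => rfl
  have hP : ∀ c ∈ C, ∀ j, j ≤ m → P c j (F c j) := by
    intro c hc j
    induction j with
    | zero =>
      intro _
      rw [hF0]
      refine ⟨hq, rfl, ?_, ?_⟩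
      · rw [pt_zero]; exact hqx
      · simp
    | succ j ih =>
      intro hj
      rw [hFs]
      exact (hnxt c j (F c j) hc (by omega) (ih (by omega))).1
  have hclose : ∀ c ∈ C, ∀ j, j < m → ∀ i, i ≤ k → dist ((F c j).1 i) ((F c (j + 1)).1 i) ≤ r0 / 32 := by
    intro c hc j hj i hi
    have h1 := (hnxt c j (F c j) hc hj (hP c hc j hj.le)).2 i hi
    rw [← hFs] at h1
    exact h1.trans ((frac_mul_le hk hi dist_nonneg).trans ((hstepx c hc j hj).trans (hstep c hc)))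
  have hlen : ∀ c ∈ C, ∀ j, j ≤ m → (F c j).2 ≤ k * (r0 / 16) := by
    intro c hc j hj
    obtain ⟨_, _, _, h4⟩ := hP c hc j hj
    have h5 : (j / m : ℝ) * ‖c - c0‖ ≤ B := (frac_mul_le hm0 hj (norm_nonneg _)).trans (hB c hc)
    have := mul_le_mul_of_nonneg_left h5 hΛ.le
    linarith
  have hnear : ∀ c ∈ C, ∀ c' ∈ C, Λ * ‖c - c'‖ ≤ r0 / 16 → ∀ j, j ≤ m → ∀ i, i ≤ k →
      dist ((F c j).1 i) ((F c' j).1 i) ≤ r0 / 16 := by
    intro c hc c' hc' hcc j
    induction j with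
    | zero => intro _ i _; rw [hF0, hF0, dist_self]; exact hr.le
    | succ j ih =>
      intro hj i hi
      obtain ⟨a1, a2, a3, a4⟩ := hP c hc (j + 1) hj
      obtain ⟨b1, b2, b3, b4⟩ := hP c' hc' (j + 1) hj
      have hcv := conv _ _ _ _ a1 b1 (hlen c hc _ hj) (hlen c' hc' _ hj) (a2.trans b2.symm) (by
        intro i hi
        have h1 := hclose c hc j (by omega) i hi
        have h2 := hclose c' hc' j (by omega) i hi
        have h3 := ih (by omega) i hi
        have h4 := dist_triangle4 ((F c (j + 1)).1 i) ((F c j).1 i) ((F c' j).1 i) ((F c' (j + 1)).1 i)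
        have h5 := dist_comm ((F c (j + 1)).1 i) ((F c j).1 i)
        linarith) i hi
      refine hcv.trans ((frac_mul_le hk hi dist_nonneg).trans ?_)
      rw [a3, b3]
      refine (hx _ (pt_mem hC hc0 hc hm0 hj) _ (pt_mem hC hc0 hc' hm0 hj)).trans ?_
      rw [pt_diff]
      have := mul_le_mul_of_nonneg_left (frac_mul_le hm0 hj (norm_nonneg (c - c'))) hΛ.le
      linarith
  refine ⟨fun c => (F c m).1, fun c => (F c m).2, ⟨?_, ?_, ?_, ?_, ?_⟩, ?_, ?_⟩
  · intro c hc; exact (hP c hc m le_rfl).1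
  · intro c hc; exact hlen c hc m le_rfl
  · intro c hc; exact (hP c hc m le_rfl).2.1
  · intro c hc
    have := (hP c hc m le_rfl).2.2.1
    rwa [pt_last c0 c hm0] at this
  · intro c hc c' hc' hcc i hi
    exact hnear c hc c' hc' hcc m le_rfl i hi
  · have key : ∀ j, j ≤ m → (F c0 j).1 = q := by
      intro j
      induction j with
      | zero => intro _; rfl
      | succ j ih =>
        intro hj
        have e := ih (by omega)
        have h1 := (hnxt c0 j (F c0 j) hc0 (by omega) (hP c0 hc0 j (by omega))).2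
        rw [← hFs, e] at h1
        symm
        refine kgeo_ext hq (hP c0 hc0 (j + 1) hj).1 fun i hi => ?_
        have h2 := h1 i hi
        have h3 : pt c0 c0 m j = pt c0 c0 m (j + 1) := by simp [pt]
        rw [h3, dist_self, mul_zero] at h2
        exact dist_le_zero.1 h2
    exact key m le_rfl
  · intro c hc
    obtain ⟨_, _, _, h4⟩ := hP c hc m le_rfl
    have : (m / m : ℝ) = 1 := div_self hm'.ne'
    rw [this, one_mul] at h4
    exact h4

end

end Pool.Agent.helper18.FJ3
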